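import Mathlib

/-!
# MP_669787_al, Q1: semilocal skew Laurent series rings

There are a (commutative, local) ring `A` and an automorphism `φ` such that `A((x, φ))` is
semilocal (even local) although `J(A)` is not nil.
-/

namespace Pool.Agent.Results.MP_669787_al.SemilocalSkewLaurent

/-- Skew Laurent series `∑_{i ≥ n} a_i x^i`, given by their coefficients. -/
@[ext]
structure SkewLaurent (A : Type) [Ring A] (φ : A ≃+* A) where
  coeff : ℤ → A
  bdd : ∃ n : ℤ, ∀ i < n, coeff i = 0

namespace SkewLaurent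

variable {A : Type} [Ring A] {φ : A ≃+* A}

/-- The operator `f ↦ (s ↦ φ^s(a) f(s + i))` (which represents `a x^i`). -/
def op (φ : A ≃+* A) (a : A) (i : ℤ) : AddMonoid.End (ℤ → A) where
  toFun f := fun s => (φ ^ s) a * f (s + i)
  map_zero' := by ext s; simp
  map_add' f g := by ext s; simp [mul_add]

theorem op_apply (a : A) (i : ℤ) (f : ℤ → A) (s : ℤ) :
    op φ a i f s = (φ ^ s) a * f (s + i) := rfl

theorem op_add (a b : A) (i : ℤ) : op φ (a + b) i = op φ a i + op φ b i := by
  ext f s
  show (φ ^ s) (a + b) * f (s + i) = (φ ^ s) a * f (s + i) + (φ ^ s) b * f (s + i)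
  rw [map_add, add_mul]

theorem op_zero (i : ℤ) : op φ 0 i = 0 := by
  ext f s
  show (φ ^ s) 0 * f (s + i) = 0
  rw [map_zero, zero_mul]

theorem op_neg (a : A) (i : ℤ) : op φ (-a) i = - op φ a i := by
  have h := op_add (φ := φ) a (-a) i
  rw [add_neg_cancel, op_zero] at h
  exact (neg_eq_of_add_eq_zero_right h.symm).symm

theorem op_one : op φ 1 0 = 1 := by
  ext f s
  show (φ ^ s) 1 * f (s + 0) = f s
  rw [map_one, one_mul, add_zero]

theorem op_mul (a b : A) (i j : ℤ) : op φ a i * op φ b j = op φ (a * (φ ^ i) b) (i + j) := by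
  ext f s
  show (φ ^ s) a * ((φ ^ (s + i)) b * f (s + i + j)) = (φ ^ s) (a * (φ ^ i) b) * f (s + (i + j))
  rw [map_mul, zpow_add, mul_assoc, add_assoc]
  rfl

theorem op_inj {a b : A} {i : ℤ} (h : op φ a i = op φ b i) : a = b := by
  have h1 : op φ a i (fun _ => 1) 0 = op φ b i (fun _ => 1) 0 := by rw [h]
  rw [op_apply, op_apply, mul_one, mul_one, zpow_zero] at h1
  exact h1

/-- the representing Hahn series -/
noncomputable def toHahn (f : SkewLaurent A φ) : HahnSeries ℤ (AddMonoid.End (ℤ → A)) :=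
  HahnSeries.ofSuppBddBelow (fun i => op φ (f.coeff i) i) (by
    obtain ⟨n, hn⟩ := f.bdd
    refine ⟨n, fun i hi => ?_⟩
    by_contra h
    apply hi
    show op φ (f.coeff i) i = 0
    rw [hn i (not_le.1 h), op_zero])

theorem toHahn_coeff (f : SkewLaurent A φ) (i : ℤ) : (toHahn f).coeff i = op φ (f.coeff i) i := by
  simp [toHahn]

theorem toHahn_injective : Function.Injective (toHahn : SkewLaurent A φ → _) := by
  intro f g h
  ext i
  have h1 := congrArg (fun F => HahnSeries.coeff F i) h
  simp only [toHahn_coeff] at h1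
  exact op_inj h1

instance : Zero (SkewLaurent A φ) := ⟨⟨fun _ => 0, 0, fun _ _ => rfl⟩⟩

instance : One (SkewLaurent A φ) :=
  ⟨⟨fun i => if i = 0 then 1 else 0, 0, fun i hi => if_neg (ne_of_lt hi)⟩⟩

instance : Add (SkewLaurent A φ) :=
  ⟨fun f g => ⟨fun i => f.coeff i + g.coeff i, by
    obtain ⟨n, hn⟩ := f.bdd
    obtain ⟨m, hm⟩ := g.bdd
    exact ⟨min n m, fun i hi => by
      rw [hn i (lt_of_lt_of_le hi (min_le_left _ _)), hm i (lt_of_lt_of_le hi (min_le_right _ _)),
        add_zero]⟩⟩⟩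

instance : Neg (SkewLaurent A φ) :=
  ⟨fun f => ⟨fun i => - f.coeff i, by
    obtain ⟨n, hn⟩ := f.bdd
    exact ⟨n, fun i hi => by rw [hn i hi, neg_zero]⟩⟩⟩

/-- The product: `(∑ a_i x^i) (∑ b_j x^j)` has the coefficient `∑_i a_i φ^i(b_{n-i})` at `x^n`
(a finite sum). -/
noncomputable instance : Mul (SkewLaurent A φ) :=
  ⟨fun f g => ⟨fun n => ∑ᶠ i : ℤ, f.coeff i * (φ ^ i) (g.coeff (n - i)), by
    obtain ⟨n, hn⟩ := f.bdd
    obtain ⟨m, hm⟩ := g.bdd
    refine ⟨n + m, fun i hi => ?_⟩
    rw [finsum_eq_zero_of_forall_eq_zero]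
    intro j
    by_cases hj : j < n
    · rw [hn j hj, zero_mul]
    · rw [hm (i - j) (by omega), map_zero, mul_zero]⟩⟩

theorem zero_coeff (i : ℤ) : (0 : SkewLaurent A φ).coeff i = 0 := rfl
theorem one_coeff (i : ℤ) : (1 : SkewLaurent A φ).coeff i = if i = 0 then 1 else 0 := rfl
theorem add_coeff (f g : SkewLaurent A φ) (i : ℤ) :
    (f + g).coeff i = f.coeff i + g.coeff i := rfl
theorem neg_coeff (f : SkewLaurent A φ) (i : ℤ) : (-f).coeff i = - f.coeff i := rfl
theorem mul_coeff (f g : SkewLaurent A φ) (n : ℤ) :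
    (f * g).coeff n = ∑ᶠ i : ℤ, f.coeff i * (φ ^ i) (g.coeff (n - i)) := rfl

theorem toHahn_zero : toHahn (0 : SkewLaurent A φ) = 0 := by
  ext1; ext1 i
  rw [toHahn_coeff, zero_coeff, op_zero]; rfl

theorem toHahn_one : toHahn (1 : SkewLaurent A φ) = 1 := by
  ext1; ext1 i
  rw [toHahn_coeff, one_coeff, HahnSeries.coeff_one]
  by_cases h : i = 0
  · subst h; rw [if_pos rfl, if_pos rfl, op_one]
  · rw [if_neg h, if_neg h, op_zero]

theorem toHahn_add (f g : SkewLaurent A φ) : toHahn (f + g) = toHahn f + toHahn g := by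
  ext1; ext1 i
  rw [toHahn_coeff, add_coeff, op_add, HahnSeries.coeff_add, toHahn_coeff, toHahn_coeff]

theorem toHahn_neg (f : SkewLaurent A φ) : toHahn (-f) = - toHahn f := by
  ext1; ext1 i
  rw [toHahn_coeff, neg_coeff, op_neg, HahnSeries.coeff_neg, toHahn_coeff]

theorem finite_supp (f g : SkewLaurent A φ) (n : ℤ) :
    (Function.support fun i : ℤ => f.coeff i * (φ ^ i) (g.coeff (n - i))).Finite := by
  obtain ⟨a, ha⟩ := f.bdd
  obtain ⟨b, hb⟩ := g.bdd
  refine (Set.finite_Icc a (n - b)).subset fun i hi => ?_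
  constructor
  · by_contra h
    apply hi
    show f.coeff i * (φ ^ i) (g.coeff (n - i)) = 0
    rw [ha i (not_le.1 h), zero_mul]
  · by_contra h
    apply hi
    show f.coeff i * (φ ^ i) (g.coeff (n - i)) = 0
    rw [hb (n - i) (by omega), map_zero, mul_zero]

theorem toHahn_mul (f g : SkewLaurent A φ) : toHahn (f * g) = toHahn f * toHahn g := by
  ext1; ext1 n
  rw [toHahn_coeff, mul_coeff, HahnSeries.coeff_mul]
  -- the additive map `a ↦ op a n`
  let F : A →+ AddMonoid.End (ℤ → A) :=
    { toFun := fun a => op φ a n, map_zero' := op_zero n, map_add' := fun a b => op_add a b n }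
  have h1 : op φ (∑ᶠ i : ℤ, f.coeff i * (φ ^ i) (g.coeff (n - i))) n
      = ∑ᶠ i : ℤ, op φ (f.coeff i * (φ ^ i) (g.coeff (n - i))) n :=
    F.map_finsum (finite_supp f g n)
  rw [h1]
  have h2 : ∀ i : ℤ, op φ (f.coeff i * (φ ^ i) (g.coeff (n - i))) n
      = (toHahn f).coeff i * (toHahn g).coeff (n - i) := by
    intro i
    rw [toHahn_coeff, toHahn_coeff, op_mul]
    congr 1
    ring
  simp_rw [h2]
  rw [finsum_eq_sum_of_support_subset (s := (Finset.antidiagonal (toHahn f).isPWO_support
    (toHahn g).isPWO_support n).image Prod.fst)]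
  · rw [Finset.sum_image]
    · refine Finset.sum_congr rfl fun ij hij => ?_
      rw [Finset.mem_antidiagonal] at hij
      have : n - ij.1 = ij.2 := by have := hij.2.2; omega
      rw [this]
    · intro x hx y hy hxy
      rw [Finset.mem_coe, Finset.mem_antidiagonal] at hx hy
      apply Prod.ext hxy
      have h1 := hx.2.2
      have h2 := hy.2.2
      have h3 : x.1 = y.1 := hxy
      omega
  · intro i hi
    rw [Function.mem_support] at hi
    simp only [Finset.coe_image, Set.mem_image, Finset.mem_coe]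
    refine ⟨(i, n - i), ?_, rfl⟩
    rw [Finset.mem_antidiagonal]
    refine ⟨?_, ?_, by simp⟩
    · intro h; apply hi; rw [h, zero_mul]
    · intro h; apply hi; rw [h, mul_zero]

theorem toHahn_neg_add (f : SkewLaurent A φ) :
    toHahn (-f + f) = toHahn (0 : SkewLaurent A φ) := by
  rw [toHahn_add, toHahn_neg, toHahn_zero]
  exact neg_add_cancel (toHahn f)

/-- The skew Laurent series ring `A((x, φ))`. -/
noncomputable instance : Ring (SkewLaurent A φ) where
  add_assoc f g h := toHahn_injective (by simp only [toHahn_add, add_assoc])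
  zero_add f := toHahn_injective (by simp only [toHahn_add, toHahn_zero, zero_add])
  add_zero f := toHahn_injective (by simp only [toHahn_add, toHahn_zero, add_zero])
  add_comm f g := toHahn_injective (by rw [toHahn_add, toHahn_add, add_comm])
  left_distrib f g h := toHahn_injective (by simp only [toHahn_add, toHahn_mul, mul_add])
  right_distrib f g h := toHahn_injective (by simp only [toHahn_add, toHahn_mul, add_mul])
  zero_mul f := toHahn_injective (by simp only [toHahn_mul, toHahn_zero, zero_mul])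
  mul_zero f := toHahn_injective (by simp only [toHahn_mul, toHahn_zero, mul_zero])
  mul_assoc f g h := toHahn_injective (by simp only [toHahn_mul, mul_assoc])
  one_mul f := toHahn_injective (by simp only [toHahn_mul, toHahn_one, one_mul])
  mul_one f := toHahn_injective (by simp only [toHahn_mul, toHahn_one, mul_one])
  neg_add_cancel f := toHahn_injective (toHahn_neg_add f)
  nsmul := nsmulRec
  zsmul := zsmulRec

/-! ### Monomials -/

/-- the monomial `a x^i` -/
def mono (a : A) (i : ℤ) : SkewLaurent A φ :=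
  ⟨fun j => if j = i then a else 0, i, fun _ hj => if_neg (ne_of_lt hj)⟩

theorem mono_coeff (a : A) (i j : ℤ) :
    (mono a i : SkewLaurent A φ).coeff j = if j = i then a else 0 := rfl

theorem mono_mul_coeff (a : A) (i : ℤ) (g : SkewLaurent A φ) (n : ℤ) :
    (mono a i * g).coeff n = a * (φ ^ i) (g.coeff (n - i)) := by
  rw [mul_coeff, finsum_eq_single _ i]
  · rw [mono_coeff, if_pos rfl]
  · intro j hj
    rw [mono_coeff, if_neg hj, zero_mul]

theorem mul_mono_coeff (a : A) (i : ℤ) (g : SkewLaurent A φ) (n : ℤ) :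
    (g * mono a i).coeff n = g.coeff (n - i) * (φ ^ (n - i)) a := by
  rw [mul_coeff, finsum_eq_single _ (n - i)]
  · rw [mono_coeff, if_pos (by ring)]
  · intro j hj
    rw [mono_coeff, if_neg (by omega), map_zero, mul_zero]

theorem mono_mul_mono (a b : A) (i j : ℤ) :
    (mono a i * mono b j : SkewLaurent A φ) = mono (a * (φ ^ i) b) (i + j) := by
  ext n
  rw [mono_mul_coeff, mono_coeff, mono_coeff]
  by_cases h : n = i + j
  · rw [if_pos (by omega), if_pos h]
  · rw [if_neg (by omega), if_neg h, map_zero, mul_zero]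

theorem mono_one : (mono 1 0 : SkewLaurent A φ) = 1 := rfl

theorem isUnit_mono (a : A) (i : ℤ) (ha : IsUnit a) : IsUnit (mono a i : SkewLaurent A φ) := by
  obtain ⟨u, rfl⟩ := ha
  have h1 : (mono (u : A) i * mono ((φ ^ (-i)) (↑u⁻¹ : A)) (-i) : SkewLaurent A φ) = 1 := by
    rw [mono_mul_mono, ← RingAut.mul_apply, ← zpow_add, add_neg_cancel, zpow_zero]
    show mono ((u : A) * (↑u⁻¹ : A)) 0 = 1
    rw [Units.mul_inv, mono_one]
  have h2 : (mono ((φ ^ (-i)) (↑u⁻¹ : A)) (-i) * mono (u : A) i : SkewLaurent A φ) = 1 := by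
    rw [mono_mul_mono, ← map_mul, Units.inv_mul, map_one, neg_add_cancel, mono_one]
  exact ⟨⟨_, _, h1, h2⟩, rfl⟩

/-! ### Units -/

/-- coefficients of the right inverse of a series `1 + …` -/
noncomputable def w (u : SkewLaurent A φ) : ℕ → A
  | 0 => 1
  | (n + 1) => - ∑ j : Fin (n + 1), u.coeff ((j : ℕ) + 1) * (φ ^ (((j : ℕ) : ℤ) + 1)) (w u (n - j))

theorem exists_right_inv (u : SkewLaurent A φ) (h0 : u.coeff 0 = 1)
    (hneg : ∀ i < 0, u.coeff i = 0) :
    ∃ v : SkewLaurent A φ, v.coeff 0 = 1 ∧ (∀ i < 0, v.coeff i = 0) ∧ u * v = 1 := by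
  let v : SkewLaurent A φ := ⟨fun i => if i < 0 then 0 else w u i.toNat, 0, fun i hi => if_pos hi⟩
  have hv : ∀ n : ℕ, v.coeff n = w u n := by
    intro n
    show (if ((n : ℤ) < 0) then 0 else w u (n : ℤ).toNat) = w u n
    rw [if_neg (by omega), Int.toNat_natCast]
  have hv' : ∀ i < 0, v.coeff i = 0 := fun i hi => if_pos hi
  have hw0 : w u 0 = 1 := by rw [w]
  refine ⟨v, ?_, hv', ?_⟩
  · have := hv 0
    rw [hw0] at this
    exact this
  · ext n
    rw [one_coeff, mul_coeff]
    rcases lt_or_ge n 0 with hn | hn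
    · rw [if_neg (ne_of_lt hn), finsum_eq_zero_of_forall_eq_zero]
      intro i
      by_cases hi : i < 0
      · rw [hneg i hi, zero_mul]
      · rw [hv' (n - i) (by omega), map_zero, mul_zero]
    · obtain ⟨m, rfl⟩ : ∃ m : ℕ, n = m := ⟨n.toNat, by omega⟩
      rw [finsum_eq_sum_of_support_subset (s := (Finset.range (m + 1)).map Nat.castEmbedding)]
      · rw [Finset.sum_map]
        simp only [Nat.castEmbedding_apply]
        rcases m with _ | m
        · simp [h0]
          exact (hv 0).trans hw0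
        · rw [if_neg (by omega), Finset.sum_range_succ']
          have e1 : u.coeff ((0 : ℕ) : ℤ) * (φ ^ ((0 : ℕ) : ℤ)) (v.coeff (((m + 1 : ℕ) : ℤ) - (0 : ℕ)))
              = w u (m + 1) := by
            rw [Nat.cast_zero, h0, one_mul, zpow_zero, sub_zero]
            exact hv (m + 1)
          rw [e1, w, Finset.sum_fin_eq_sum_range]
          rw [← sub_eq_add_neg, sub_eq_zero]
          refine Finset.sum_congr rfl fun i hi => ?_
          rw [Finset.mem_range] at hi
          rw [dif_pos hi]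
          have e2 : ((m + 1 : ℕ) : ℤ) - ((i + 1 : ℕ) : ℤ) = ((m - i : ℕ) : ℤ) := by
            push_cast [Nat.le_of_lt_succ hi]; ring
          rw [e2, hv]
          push_cast
          rfl
      · intro i hi
        rw [Function.mem_support] at hi
        rw [Finset.coe_map, Set.mem_image]
        have h1 : ¬ i < 0 := by
          intro h; apply hi; rw [hneg i h, zero_mul]
        have h2 : ¬ (m : ℤ) - i < 0 := by
          intro h; apply hi; rw [hv' _ h, map_zero, mul_zero]
        refine ⟨i.toNat, ?_, ?_⟩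
        · rw [Finset.mem_coe, Finset.mem_range]; omega
        · show ((i.toNat : ℕ) : ℤ) = i
          omega

theorem isUnit_of_one (u : SkewLaurent A φ) (h0 : u.coeff 0 = 1)
    (hneg : ∀ i < 0, u.coeff i = 0) : IsUnit u := by
  obtain ⟨v, hv0, hvneg, huv⟩ := exists_right_inv u h0 hneg
  obtain ⟨t, _, _, hvt⟩ := exists_right_inv v hv0 hvneg
  have h : u = t := by
    calc u = u * (v * t) := by rw [hvt, mul_one]
      _ = t := by rw [← mul_assoc, huv, one_mul]
  rw [← h] at hvt
  exact ⟨⟨u, v, huv, hvt⟩, rfl⟩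

/-- a series whose lowest coefficient is a unit is a unit -/
theorem isUnit_of_lowest (u : SkewLaurent A φ) (m : ℤ) (hm : IsUnit (u.coeff m))
    (hlow : ∀ i < m, u.coeff i = 0) : IsUnit u := by
  obtain ⟨a, ha⟩ := hm
  have h1 : IsUnit (mono ((φ ^ (-m)) (↑a⁻¹ : A)) (-m) * u) := by
    apply isUnit_of_one
    · rw [mono_mul_coeff, ← map_mul]
      have : (0 : ℤ) - -m = m := by ring
      rw [this, ← ha, Units.inv_mul, map_one]
    · intro i hi
      rw [mono_mul_coeff, hlow _ (by omega), map_zero, mul_zero]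
  have h2 : IsUnit (mono ((φ ^ (-m)) (↑a⁻¹ : A)) (-m) : SkewLaurent A φ) :=
    isUnit_mono _ _ ((a⁻¹).isUnit.map _)
  obtain ⟨p, hp⟩ := h2
  rw [← hp] at h1
  exact (Units.isUnit_units_mul p u).1 h1

end SkewLaurent

/-! ### The coefficient ring -/

open PowerSeries

/-- The ring of all functions `f : ℤ → ℚ⟦X⟧` all of whose values have the same constant
coefficient `c ∈ ℚ` and all but finitely many of whose values are equal to the constant `c`. -/
def A0 : Subring (ℤ → PowerSeries ℚ) where
  carrier := {f | ∃ c : ℚ, (∀ s, constantCoeff (f s) = c) ∧ {s | f s ≠ C c}.Finite}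
  mul_mem' := by
    rintro f g ⟨c, hc, hc'⟩ ⟨d, hd, hd'⟩
    refine ⟨c * d, fun s => ?_, (hc'.union hd').subset fun s hs => ?_⟩
    · rw [Pi.mul_apply, map_mul, hc, hd]
    · by_contra h
      rw [Set.mem_union, not_or] at h
      simp only [Set.mem_ofPred_eq, not_not] at h
      apply hs
      rw [Pi.mul_apply, h.1, h.2, map_mul]
  one_mem' := ⟨1, fun s => by simp, by simp⟩
  add_mem' := by
    rintro f g ⟨c, hc, hc'⟩ ⟨d, hd, hd'⟩
    refine ⟨c + d, fun s => ?_, (hc'.union hd').subset fun s hs => ?_⟩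
    · rw [Pi.add_apply, map_add, hc, hd]
    · by_contra h
      rw [Set.mem_union, not_or] at h
      simp only [Set.mem_ofPred_eq, not_not] at h
      apply hs
      rw [Pi.add_apply, h.1, h.2, map_add]
  zero_mem' := ⟨0, fun s => by simp, by simp⟩
  neg_mem' := by
    rintro f ⟨c, hc, hc'⟩
    refine ⟨-c, fun s => ?_, hc'.subset fun s hs => ?_⟩
    · rw [Pi.neg_apply, map_neg, hc]
    · intro h
      apply hs
      rw [Pi.neg_apply, h, map_neg]

/-- the constant coefficient -/
noncomputable def c0 : A0 →+* ℚ :=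
  (constantCoeff (R := ℚ)).comp ((Pi.evalRingHom (fun _ : ℤ => PowerSeries ℚ) 0).comp A0.subtype)

theorem c0_eq (f : A0) (s : ℤ) : constantCoeff (f.1 s) = c0 f := by
  obtain ⟨c, hc, _⟩ := f.2
  rw [hc s]
  exact (hc 0).symm

theorem fin_c0 (f : A0) : {s | f.1 s ≠ C (c0 f)}.Finite := by
  obtain ⟨c, hc, hc'⟩ := f.2
  have : c0 f = c := hc 0
  rw [this]
  exact hc'

/-- the shift by `n` -/
def sh (n : ℤ) (f : A0) : A0 := ⟨fun s => f.1 (s - n), by
  obtain ⟨c, hc, hc'⟩ := f.2
  exact ⟨c, fun s => hc _, hc'.preimage (f := fun s => s - n)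
    (Function.Injective.injOn fun a b hab => by simpa using hab)⟩⟩

/-- the automorphism `(φ f)(s) = f (s - 1)` -/
def φ0 : A0 ≃+* A0 where
  toFun := sh 1
  invFun := sh (-1)
  left_inv f := by
    apply Subtype.ext
    funext s
    show f.1 (s - -1 - 1) = f.1 s
    ring_nf
  right_inv f := by
    apply Subtype.ext
    funext s
    show f.1 (s - 1 - -1) = f.1 s
    ring_nf
  map_mul' _ _ := rfl
  map_add' _ _ := rfl

theorem φ0_zpow (n : ℤ) (f : A0) (s : ℤ) : ((φ0 ^ n) f).1 s = f.1 (s - n) := by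
  induction n using Int.induction_on generalizing f with
  | zero => simp
  | succ n ih =>
    rw [zpow_add_one, RingAut.mul_apply, ih]
    show f.1 (s - n - 1) = _
    ring_nf
  | pred n ih =>
    rw [zpow_sub_one, RingAut.mul_apply, ih]
    show f.1 (s - -n - -1) = _
    ring_nf

theorem c0_zpow (n : ℤ) (f : A0) : c0 ((φ0 ^ n) f) = c0 f := by
  rw [← c0_eq _ 0, φ0_zpow, c0_eq]

theorem isUnit_of_c0 (f : A0) (hf : c0 f ≠ 0) : IsUnit f := by
  refine isUnit_iff_exists_inv.2 ⟨⟨fun s => (f.1 s)⁻¹, (c0 f)⁻¹, fun s => ?_, ?_⟩, ?_⟩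
  · rw [constantCoeff_inv, c0_eq]
  · refine (fin_c0 f).subset fun s hs h => hs ?_
    show (f.1 s)⁻¹ = C (c0 f)⁻¹
    rw [h, C_inv]
  · apply Subtype.ext
    funext s
    exact PowerSeries.mul_inv_cancel _ (by rw [c0_eq]; exact hf)

instance : IsLocalRing A0 := by
  apply IsLocalRing.of_isUnit_or_isUnit_one_sub_self
  intro a
  by_cases h : c0 a = 0
  · right
    apply isUnit_of_c0
    rw [map_sub, map_one, h, sub_zero]
    exact one_ne_zero
  · exact Or.inl (isUnit_of_c0 a h)

instance : IsReduced A0 := by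
  constructor
  intro f hf
  obtain ⟨n, hn⟩ := hf
  apply Subtype.ext
  funext s
  have h1 : (f ^ n).1 s = 0 := by rw [hn]; rfl
  have h2 : (f ^ n).1 s = (f.1 s) ^ n := rfl
  rw [h2] at h1
  exact IsNilpotent.eq_zero ⟨n, h1⟩

/-- the element of `A0` with the value `g` at `s` and `0` elsewhere -/
noncomputable def sg (s : ℤ) (g : PowerSeries ℚ) (hg : constantCoeff g = 0) : A0 :=
  ⟨fun t => if t = s then g else 0, 0, fun t => by
    by_cases h : t = s
    · simp [h, hg]
    · simp [h], (Set.finite_singleton s).subset fun t ht => by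
    by_contra h
    apply ht
    show (if t = s then g else 0) = C 0
    rw [if_neg (fun h' => h (Set.mem_singleton_iff.2 h')), map_zero]⟩

theorem sg_apply (s : ℤ) (g : PowerSeries ℚ) (hg : constantCoeff g = 0) (t : ℤ) :
    (sg s g hg).1 t = if t = s then g else 0 := rfl

theorem mem_jacobson_of_c0 (f : A0) (hf : c0 f = 0) : f ∈ Ring.jacobson A0 := by
  rw [← Ideal.jacobson_bot, IsLocalRing.jacobson_eq_maximalIdeal _ bot_ne_top,
    IsLocalRing.mem_maximalIdeal, mem_nonunits_iff]
  intro h
  have := h.map c0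
  rw [hf] at this
  exact not_isUnit_zero this

/-! ### The Jacobson radical of the skew Laurent series ring -/

open SkewLaurent

/-- the ring `A0((x, φ0))` -/
abbrev R0 : Type := SkewLaurent A0 φ0

theorem mem_jac_iff {R : Type} [Ring R] (x : R) :
    x ∈ Ring.jacobson R ↔ ∀ y, ∃ z, z * y * x + z = 1 := by
  rw [← Ideal.jacobson_bot, Ideal.mem_jacobson_iff]
  simp only [Ideal.mem_bot, sub_eq_zero]

theorem isUnit_add_jac {R : Type} [Ring R] (u j : R) (hu : IsUnit u) (hj : j ∈ Ring.jacobson R) :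
    IsUnit (u + j) := by
  have key : ∀ j ∈ Ring.jacobson R, ∃ z, z * (1 + j) = 1 := by
    intro j hj
    obtain ⟨z, hz⟩ := (mem_jac_iff j).1 hj 1
    exact ⟨z, by rw [mul_add, mul_one, add_comm]; rw [mul_one] at hz; exact hz⟩
  have key2 : ∀ j ∈ Ring.jacobson R, IsUnit (1 + j) := by
    intro j hj
    obtain ⟨z, hz⟩ := key j hj
    have h1 : z = 1 + (-(z * j)) := by
      rw [mul_add, mul_one] at hz
      rw [← hz]; abel
    obtain ⟨t, ht⟩ := key (-(z * j)) (neg_mem (Ideal.mul_mem_left _ _ hj))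
    rw [← h1] at ht
    have h2 : t = 1 + j := by
      calc t = t * (z * (1 + j)) := by rw [hz, mul_one]
        _ = 1 + j := by rw [← mul_assoc, ht, one_mul]
    rw [h2] at ht
    exact ⟨⟨1 + j, z, ht, hz⟩, rfl⟩
  obtain ⟨u, rfl⟩ := hu
  have h3 : (u : R) + j = u * (1 + (↑u⁻¹ : R) * j) := by
    rw [mul_add, mul_one, Units.mul_inv_cancel_left]
  rw [h3]
  exact u.isUnit.mul (key2 _ (Ideal.mul_mem_left _ _ hj))

/-- `t_s(g) ∈ J(A0((x, φ0)))` -/
theorem mono_sg_mem (s : ℤ) (g : PowerSeries ℚ) (hg : constantCoeff g = 0) :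
    (mono (sg s g hg) 0 : R0) ∈ Ring.jacobson R0 := by
  rw [mem_jac_iff]
  intro y
  -- the value of the constant term of `y` at `s`
  have hu : constantCoeff (1 + (y.coeff 0).1 s * g) ≠ 0 := by
    rw [map_add, map_mul, hg, mul_zero, add_zero, map_one]
    exact one_ne_zero
  let γ : PowerSeries ℚ := - (g * (1 + (y.coeff 0).1 s * g)⁻¹)
  have hγ : constantCoeff γ = 0 := by
    show constantCoeff (- (g * (1 + (y.coeff 0).1 s * g)⁻¹)) = 0
    rw [map_neg, map_mul, hg, zero_mul, neg_zero]
  have hγ2 : g + γ * ((y.coeff 0).1 s * g) + γ = 0 := by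
    have h1 : γ * (1 + (y.coeff 0).1 s * g) = - g := by
      show - (g * (1 + (y.coeff 0).1 s * g)⁻¹) * (1 + (y.coeff 0).1 s * g) = - g
      rw [neg_mul, mul_assoc, PowerSeries.inv_mul_cancel _ hu, mul_one]
    linear_combination h1
  have key : (mono (sg s g hg) 0 : R0) + mono (sg s γ hγ) 0 * (y * mono (sg s g hg) 0)
      + mono (sg s γ hγ) 0 = 0 := by
    apply SkewLaurent.ext
    funext n
    rw [add_coeff, add_coeff, mono_mul_coeff, mul_mono_coeff, mono_coeff, mono_coeff, zpow_zero,
      sub_zero, sub_zero, zero_coeff]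
    apply Subtype.ext
    funext t
    show (if n = 0 then sg s g hg else 0 : A0).1 t
      + (sg s γ hγ).1 t * ((y.coeff n).1 t * ((φ0 ^ n) (sg s g hg)).1 t)
      + (if n = 0 then sg s γ hγ else 0 : A0).1 t = 0
    rw [φ0_zpow]
    by_cases hn : n = 0
    · subst hn
      rw [if_pos rfl, if_pos rfl, sub_zero]
      by_cases ht : t = s
      · subst ht
        rw [sg_apply, sg_apply, if_pos rfl, if_pos rfl]
        exact hγ2
      · rw [sg_apply, sg_apply, if_neg ht, if_neg ht]
        simp
    · rw [if_neg hn, if_neg hn]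
      by_cases ht : t = s
      · subst ht
        rw [sg_apply t g hg (t - n), if_neg (by omega)]
        show (0 : PowerSeries ℚ) + _ + 0 = 0
        simp
      · rw [sg_apply s γ, if_neg ht]
        show (0 : PowerSeries ℚ) + _ + 0 = 0
        simp
  refine ⟨1 + y * mono (sg s γ hγ) 0, ?_⟩
  have h2 : (1 + y * mono (sg s γ hγ) 0) * y * mono (sg s g hg) 0 + (1 + y * mono (sg s γ hγ) 0)
      = 1 + y * ((mono (sg s g hg) 0 : R0) + mono (sg s γ hγ) 0 * (y * mono (sg s g hg) 0)
      + mono (sg s γ hγ) 0) := by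
    noncomm_ring
  rw [h2, key, mul_zero, add_zero]

theorem mono_add (a b : A0) (i : ℤ) : (mono (a + b) i : R0) = mono a i + mono b i := by
  apply SkewLaurent.ext
  funext n
  rw [add_coeff, mono_coeff, mono_coeff, mono_coeff]
  by_cases h : n = i
  · rw [if_pos h, if_pos h, if_pos h]
  · rw [if_neg h, if_neg h, if_neg h, add_zero]

theorem mono_zero (i : ℤ) : (mono (0 : A0) i : R0) = 0 := by
  apply SkewLaurent.ext
  funext n
  rw [mono_coeff, zero_coeff]
  by_cases h : n = i
  · rw [if_pos h]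
  · rw [if_neg h]

/-- monomials with a coefficient in `J(A0)` belong to the Jacobson radical -/
theorem mono_mem (f : A0) (hf : c0 f = 0) (i : ℤ) : (mono f i : R0) ∈ Ring.jacobson R0 := by
  have h0 : (mono f i : R0) = mono f 0 * mono 1 i := by
    rw [mono_mul_mono, zpow_zero, zero_add]
    show _ = mono (f * 1) i
    rw [mul_one]
  rw [h0]
  apply Ideal.mul_mem_right
  -- induction on the support
  have key : ∀ (F : Finset ℤ) (f : A0), c0 f = 0 → (∀ s ∉ F, f.1 s = 0) →
      (mono f 0 : R0) ∈ Ring.jacobson R0 := by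
    intro F
    induction F using Finset.induction_on with
    | empty =>
      intro f _ h
      have : f = 0 := Subtype.ext (funext fun s => h s (Finset.notMem_empty s))
      rw [this, mono_zero]
      exact zero_mem _
    | insert a F ha ih =>
      intro f hf h
      have hfa : constantCoeff (f.1 a) = 0 := by rw [c0_eq, hf]
      have e1 : f = sg a (f.1 a) hfa + (f - sg a (f.1 a) hfa) := by abel
      rw [e1, mono_add]
      refine add_mem (mono_sg_mem a _ hfa) (ih _ ?_ ?_)
      · rw [map_sub, hf, zero_sub, neg_eq_zero, ← c0_eq _ (a + 1), sg_apply, if_neg (by omega),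
          map_zero]
      · intro s hs
        show f.1 s - (sg a (f.1 a) hfa).1 s = 0
        rw [sg_apply]
        by_cases hsa : s = a
        · rw [if_pos hsa, hsa, sub_self]
        · rw [if_neg hsa, sub_zero]
          exact h s (by rw [Finset.mem_insert, not_or]; exact ⟨hsa, hs⟩)
  have hfin := fin_c0 f
  rw [hf, map_zero] at hfin
  refine key hfin.toFinset f hf fun s hs => ?_
  by_contra h
  exact hs (hfin.mem_toFinset.2 h)

/-- a series with a coefficient outside `J(A0)` is a unit -/
theorem isUnit_R0 (f : R0) (hf : ∃ i, c0 (f.coeff i) ≠ 0) : IsUnit f := by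
  obtain ⟨b, hb⟩ := f.bdd
  -- the minimal such `i`
  obtain ⟨m, hm, hmin⟩ : ∃ m, c0 (f.coeff m) ≠ 0 ∧ ∀ i < m, c0 (f.coeff i) = 0 := by
    obtain ⟨m, hm, hmin⟩ := Int.exists_least_of_bdd (P := fun i => c0 (f.coeff i) ≠ 0)
      ⟨b, fun z hz => by
        by_contra h
        apply hz
        rw [hb z (not_le.1 h), map_zero]⟩ hf
    exact ⟨m, hm, fun i hi => by
      by_contra h
      exact absurd (hmin i h) (not_le.2 hi)⟩
  -- the high part
  let fh : R0 := ⟨fun i => if i < m then 0 else f.coeff i, m, fun i hi => if_pos hi⟩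
  have h1 : IsUnit fh := by
    apply isUnit_of_lowest fh m
    · show IsUnit (if m < m then 0 else f.coeff m)
      rw [if_neg (lt_irrefl m)]
      exact isUnit_of_c0 _ hm
    · intro i hi
      exact if_pos hi
  have h2 : ∀ N : ℕ, ∀ g : R0, (∀ i < m - N, g.coeff i = 0) → (∀ i, m ≤ i → g.coeff i = 0) →
      (∀ i, c0 (g.coeff i) = 0) → g ∈ Ring.jacobson R0 := by
    intro N
    induction N with
    | zero =>
      intro g hg1 hg2 _
      have : g = 0 := by
        apply SkewLaurent.ext
        funext i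
        rw [zero_coeff]
        rcases lt_or_ge i m with h | h
        · exact hg1 i (by simpa using h)
        · exact hg2 i h
      rw [this]
      exact zero_mem _
    | succ N ih =>
      intro g hg1 hg2 hg3
      set a : ℤ := m - ((N : ℤ) + 1) with ha
      have e1 : g = mono (g.coeff a) a + (g - mono (g.coeff a) a) := by abel
      rw [e1]
      have e2 : ∀ i, (g - mono (g.coeff a) a).coeff i
          = g.coeff i - if i = a then g.coeff a else 0 := by
        intro i
        rw [sub_eq_add_neg, add_coeff, neg_coeff, mono_coeff, ← sub_eq_add_neg]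
      refine add_mem (mono_mem _ (hg3 a) a) (ih _ ?_ ?_ ?_)
      · intro i hi
        rw [e2]
        by_cases hia : i = a
        · rw [if_pos hia, hia, sub_self]
        · rw [if_neg hia, sub_zero]
          apply hg1
          push_cast
          omega
      · intro i hi
        rw [e2, if_neg (by omega), sub_zero]
        exact hg2 i hi
      · intro i
        rw [e2, map_sub, hg3]
        by_cases hia : i = a
        · rw [if_pos hia, hg3, sub_zero]
        · rw [if_neg hia, map_zero, sub_zero]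
  have e3 : f = fh + (f - fh) := by abel
  have e4 : ∀ i, (f - fh).coeff i = if i < m then f.coeff i else 0 := by
    intro i
    rw [sub_eq_add_neg, add_coeff, neg_coeff]
    show f.coeff i + - (if i < m then 0 else f.coeff i) = _
    by_cases h : i < m
    · rw [if_pos h, if_pos h, neg_zero, add_zero]
    · rw [if_neg h, if_neg h, add_neg_cancel]
  rw [e3]
  apply isUnit_add_jac _ _ h1
  apply h2 (m - b).toNat
  · intro i hi
    rw [e4]
    by_cases h : i < m
    · rw [if_pos h]
      exact hb i (by omega)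
    · rw [if_neg h]
  · intro i hi
    rw [e4, if_neg (not_lt.2 hi)]
  · intro i
    rw [e4]
    by_cases h : i < m
    · rw [if_pos h]
      exact hmin i h
    · rw [if_neg h, map_zero]

/-- a series all of whose coefficients belong to `J(A0)` is in the Jacobson radical -/
theorem mem_jac_R0 (f : R0) (hf : ∀ i, c0 (f.coeff i) = 0) : f ∈ Ring.jacobson R0 := by
  rw [mem_jac_iff]
  intro y
  have h1 : IsUnit (1 + y * f) := by
    apply isUnit_R0
    refine ⟨0, ?_⟩
    rw [add_coeff, one_coeff, if_pos rfl, map_add, map_one, mul_coeff]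
    have : c0 (∑ᶠ i : ℤ, y.coeff i * (φ0 ^ i) (f.coeff (0 - i))) = 0 := by
      have h2 := (c0 : A0 →+* ℚ).toAddMonoidHom.map_finsum (finite_supp y f 0)
      refine Eq.trans h2 ?_
      rw [finsum_eq_zero_of_forall_eq_zero]
      intro i
      show c0 (y.coeff i * (φ0 ^ i) (f.coeff (0 - i))) = 0
      rw [map_mul, c0_zpow, hf, mul_zero]
    rw [this, add_zero]
    exact one_ne_zero
  obtain ⟨u, hu⟩ := h1
  refine ⟨(↑u⁻¹ : R0), ?_⟩
  have h3 : (↑u⁻¹ : R0) * y * f + ↑u⁻¹ = ↑u⁻¹ * (1 + y * f) := by noncomm_ring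
  rw [h3, ← hu, Units.inv_mul]

theorem one_ne_zero_A0 : (1 : A0) ≠ 0 := one_ne_zero

theorem not_mem_one : (1 : R0) ∉ Ring.jacobson R0 := by
  intro h
  obtain ⟨z, hz⟩ := (mem_jac_iff (1 : R0)).1 h (-1)
  rw [mul_one, mul_neg, mul_one, neg_add_cancel] at hz
  have h1 := congrArg (fun F : R0 => F.coeff 0) hz
  exact one_ne_zero_A0 h1.symm

instance : Nontrivial (R0 ⧸ Ring.jacobson R0) :=
  Ideal.Quotient.nontrivial_iff.2 ((Ideal.ne_top_iff_one _).2 not_mem_one)

/-- `A0((x, φ0))` modulo its Jacobson radical is a division ring -/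
theorem isUnit_or_eq_zero (a : R0 ⧸ Ring.jacobson R0) : IsUnit a ∨ a = 0 := by
  obtain ⟨f, rfl⟩ := Ideal.Quotient.mk_surjective a
  by_cases h : ∃ i, c0 (f.coeff i) ≠ 0
  · exact Or.inl ((isUnit_R0 f h).map _)
  · right
    push Not at h
    exact Ideal.Quotient.eq_zero_iff_mem.2 (mem_jac_R0 f h)

theorem isSemisimple : IsSemisimpleRing (R0 ⧸ Ring.jacobson R0) := by
  letI : DivisionRing (R0 ⧸ Ring.jacobson R0) := DivisionRing.ofIsUnitOrEqZero isUnit_or_eq_zero
  infer_instance

/-- the element of `A0` which is `X` at `0` and `0` elsewhere -/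
noncomputable def t0 : A0 := sg 0 PowerSeries.X (by simp)

theorem t0_ne : t0 ≠ 0 := by
  intro h
  have h1 : t0.1 0 = (0 : A0).1 0 := by rw [h]
  rw [t0, sg_apply, if_pos rfl] at h1
  exact PowerSeries.X_ne_zero h1

theorem c0_t0 : c0 t0 = 0 := by
  rw [← c0_eq _ 0, t0, sg_apply, if_pos rfl]
  simp

/-- **Answer to Q1 (negative).** There are a commutative local reduced ring `A` and an automorphism
`φ` of `A` such that the skew Laurent series ring `A((x, φ))` is semilocal, although the Jacobson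
radical of `A` contains an element which is not nilpotent. -/
theorem result :
    ∃ (A : Type) (_ : CommRing A) (φ : A ≃+* A), IsLocalRing A ∧ IsReduced A ∧
      IsSemisimpleRing (SkewLaurent A φ ⧸ Ring.jacobson (SkewLaurent A φ)) ∧
      ∃ a ∈ Ring.jacobson A, ¬ IsNilpotent a :=
  ⟨A0, inferInstance, φ0, inferInstance, inferInstance, isSemisimple, t0,
    mem_jacobson_of_c0 _ c0_t0, fun h => t0_ne h.eq_zero⟩

end Pool.Agent.Results.MP_669787_al.SemilocalSkewLaurent
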